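import Mathlib
set_option autoImplicit false

/-!
Units of real quadratic fields are large or small: except for `± 1` and for the units that are up to
sign the golden ratio or its inverse, they are of absolute value `> 2` or `< 1/2`.
-/

namespace Pool.Agent.TH690.UE

open NumberField

variable {K : Type*} [Field K] [NumberField K]

/-- The extension of an embedding into `ℝ` to an embedding into `ℂ`. -/
noncomputable def cpx (s : K →+* ℝ) : K →+* ℂ := Complex.ofRealHom.comp s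

omit [NumberField K] in
theorem cpx_apply (s : K →+* ℝ) (x : K) : cpx s x = (s x : ℝ) := rfl

open scoped Classical in
theorem univ_eq (hK : Module.finrank ℚ K = 2) {s₁ s₂ : K →+* ℝ} (hs : s₁ ≠ s₂) :
    (Finset.univ : Finset (K →ₐ[ℚ] ℂ)) =
      {(cpx s₁).toRatAlgHom, (cpx s₂).toRatAlgHom} := by
  have hne : (cpx s₁).toRatAlgHom ≠ (cpx s₂).toRatAlgHom := by
    intro h
    apply hs
    ext x
    have h1 := congrArg (fun f : K →ₐ[ℚ] ℂ => f x) h
    have h2 : ((s₁ x : ℝ) : ℂ) = (s₂ x : ℝ) := h1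
    exact_mod_cast h2
  symm
  refine Finset.eq_of_subset_of_card_le (Finset.subset_univ _) ?_
  rw [Finset.card_pair hne, Finset.card_univ, AlgHom.card, hK]

theorem norm_eq (hK : Module.finrank ℚ K = 2) {s₁ s₂ : K →+* ℝ} (hs : s₁ ≠ s₂) (x : K) :
    ((Algebra.norm ℚ x : ℚ) : ℝ) = s₁ x * s₂ x := by
  classical
  have hne : (cpx s₁).toRatAlgHom ≠ (cpx s₂).toRatAlgHom := by
    intro h
    apply hs
    ext x
    have h1 := congrArg (fun f : K →ₐ[ℚ] ℂ => f x) h
    have h2 : ((s₁ x : ℝ) : ℂ) = (s₂ x : ℝ) := h1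
    exact_mod_cast h2
  have h1 := Algebra.norm_eq_prod_embeddings ℚ ℂ x
  rw [univ_eq hK hs, Finset.prod_pair hne] at h1
  have h2 : (((Algebra.norm ℚ x : ℚ) : ℝ) : ℂ) = ((s₁ x * s₂ x : ℝ) : ℂ) := by
    rw [Complex.ofReal_mul]
    exact h1
  exact_mod_cast h2

theorem trace_eq (hK : Module.finrank ℚ K = 2) {s₁ s₂ : K →+* ℝ} (hs : s₁ ≠ s₂) (x : K) :
    ((Algebra.trace ℚ K x : ℚ) : ℝ) = s₁ x + s₂ x := by
  classical
  have hne : (cpx s₁).toRatAlgHom ≠ (cpx s₂).toRatAlgHom := by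
    intro h
    apply hs
    ext x
    have h1 := congrArg (fun f : K →ₐ[ℚ] ℂ => f x) h
    have h2 : ((s₁ x : ℝ) : ℂ) = (s₂ x : ℝ) := h1
    exact_mod_cast h2
  have h1 := trace_eq_sum_embeddings (K := ℚ) (L := K) ℂ (x := x)
  rw [univ_eq hK hs, Finset.sum_pair hne] at h1
  have h2 : (((Algebra.trace ℚ K x : ℚ) : ℝ) : ℂ) = ((s₁ x + s₂ x : ℝ) : ℂ) := by
    rw [Complex.ofReal_add]
    exact h1
  exact_mod_cast h2

/-- Numbers `r` with integral trace and norm `± 1`. -/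
theorem gap {r : ℝ} {T : ℤ} {N : ℝ} (hN : |N| = 1) (h : r + N / r = T) (hr : 1 < |r|) :
    2 < |r| ∨ r ^ 2 = 1 + r ∨ r ^ 2 = 1 - r := by
  have hr0 : r ≠ 0 := by
    intro h0
    rw [h0, abs_zero] at hr
    linarith
  have hE0 : 0 < |r| := by linarith
  have h1 : (T : ℝ) * r = r ^ 2 + N := by
    rw [← h]
    field_simp
  have hE2 : 1 < |r| ^ 2 := by nlinarith
  rcases eq_or_eq_neg_of_abs_eq hN with h3 | h3
  · -- norm one
    left
    have h6 : |(T : ℝ)| * |r| = |r| ^ 2 + 1 := by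
      rw [← abs_mul, h1, h3, abs_of_pos (by positivity), sq_abs]
    have h4 : 2 < |(T : ℝ)| := by
      by_contra hcon
      push Not at hcon
      nlinarith
    have h5 : 3 ≤ |(T : ℝ)| := by
      have h6 : (2 : ℤ) < |T| := by
        have : ((2 : ℤ) : ℝ) < ((|T| : ℤ) : ℝ) := by
          rw [Int.cast_abs]
          exact_mod_cast h4
        exact_mod_cast this
      have h7 : (3 : ℤ) ≤ |T| := h6
      have : ((3 : ℤ) : ℝ) ≤ ((|T| : ℤ) : ℝ) := by exact_mod_cast h7
      rw [Int.cast_abs] at this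
      exact_mod_cast this
    by_contra hcon
    push Not at hcon
    nlinarith
  · have h4 : |(T : ℝ)| * |r| = |r| ^ 2 - 1 := by
      rw [← abs_mul, h1, h3, sq_abs, ← sub_eq_add_neg, abs_of_pos]
      rw [sq_abs] at hE2
      linarith
    have h5 : T ≠ 0 := by
      intro h0
      rw [h0, Int.cast_zero, abs_zero, zero_mul] at h4
      linarith
    have h7 : (1 : ℤ) ≤ |T| := Int.one_le_abs h5
    rcases h7.eq_or_lt with h8 | h8
    · right
      rw [h3] at h1
      rcases eq_or_eq_neg_of_abs_eq h8.symm with h9 | h9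
      · left
        rw [h9] at h1
        push_cast at h1
        linarith
      · right
        rw [h9] at h1
        push_cast at h1
        linarith
    · left
      have h9 : (2 : ℤ) ≤ |T| := h8
      have h10 : (2 : ℝ) ≤ |(T : ℝ)| := by
        have : ((2 : ℤ) : ℝ) ≤ ((|T| : ℤ) : ℝ) := by exact_mod_cast h9
        rw [Int.cast_abs] at this
        exact_mod_cast this
      by_contra hcon
      push Not at hcon
      nlinarith

theorem mul_eq (hK : Module.finrank ℚ K = 2) {s₁ s₂ : K →+* ℝ} (hs : s₁ ≠ s₂) (e : (𝓞 K)ˣ) :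
    |s₁ (e : K)| * |s₂ (e : K)| = 1 := by
  have hN : |(((Algebra.norm ℚ (e : K)) : ℚ) : ℝ)| = 1 := by
    have h1 := NumberField.Units.norm K e
    exact_mod_cast h1
  rw [← abs_mul, ← norm_eq hK hs (e : K)]
  exact hN

theorem large (hK : Module.finrank ℚ K = 2) {s₁ s₂ : K →+* ℝ} (hs : s₁ ≠ s₂) (e : (𝓞 K)ˣ)
    (h2 : (e : K) ^ 2 ≠ 1 + e) (h3 : (e : K) ^ 2 ≠ 1 - e) (h1 : 1 < |s₁ (e : K)|) :
    2 < |s₁ (e : K)| := by
  have hN : |(((Algebra.norm ℚ (e : K)) : ℚ) : ℝ)| = 1 := by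
    have h1 := NumberField.Units.norm K e
    exact_mod_cast h1
  have hn := norm_eq hK hs (e : K)
  have hr0 : s₁ (e : K) ≠ 0 := by
    intro h0
    rw [h0, abs_zero] at h1
    linarith
  rcases gap (r := s₁ (e : K)) (T := Algebra.trace ℤ (𝓞 K) (e : 𝓞 K)) hN (by
    have ht := trace_eq hK hs (e : K)
    have h2 : ((Algebra.trace ℤ (𝓞 K) (e : 𝓞 K) : ℤ) : ℝ) = s₁ (e : K) + s₂ (e : K) := by
      rw [← ht, ← Algebra.coe_trace_int]
      push_cast
      rfl
    rw [h2, hn]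
    field_simp) h1 with h4 | h4 | h4
  · exact h4
  · exfalso
    apply h2
    apply s₁.injective
    rw [map_pow, map_add, map_one]
    exact h4
  · exfalso
    apply h3
    apply s₁.injective
    rw [map_pow, map_sub, map_one]
    exact h4

/-- Units of real quadratic fields. -/
theorem unit_bounds (hK : Module.finrank ℚ K = 2) {s₁ s₂ : K →+* ℝ} (hs : s₁ ≠ s₂) (e : (𝓞 K)ˣ)
    (h1 : (e : K) ^ 2 ≠ 1) (h2 : (e : K) ^ 2 ≠ 1 + e) (h3 : (e : K) ^ 2 ≠ 1 - e) :
    (2 < |s₁ (e : K)| ∧ |s₂ (e : K)| < 1 / 2) ∨ (|s₁ (e : K)| < 1 / 2 ∧ 2 < |s₂ (e : K)|) := by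
  have hm := mul_eq hK hs e
  have p1 : 0 ≤ |s₁ (e : K)| := abs_nonneg _
  have p2 : 0 ≤ |s₂ (e : K)| := abs_nonneg _
  rcases lt_trichotomy |s₁ (e : K)| 1 with h4 | h4 | h4
  · right
    have h5 : 1 < |s₂ (e : K)| := by nlinarith
    have h6 := large hK hs.symm e h2 h3 h5
    exact ⟨by nlinarith, h6⟩
  · exfalso
    apply h1
    apply s₁.injective
    rw [map_pow, ← sq_abs, h4, one_pow, map_one]
  · left
    have h6 := large hK hs e h2 h3 h4
    exact ⟨h6, by nlinarith⟩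

end Pool.Agent.TH690.UE
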