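import Pool.Agent.TH690.UE.Side
import Pool.Agent.TH690.UE.Quad
set_option autoImplicit false

/-!
Two classes with independent regulators on the curves `z + 1/z = c x² + t` over fields with two
embeddings.
-/

namespace Pool.Agent.TH690.UE

open Polynomial

open Pool.Agent.TH826.MK (KQ symb Torus Unramified)

open Pool.Agent.TH826.HD Pool.Agent.TH826.UH

open Pool.Agent.TH690.UF (SmoothPts)

variable {K : Type*} [Field K]

/-- The element `τ` of `K` is a sum `ζ + 1/ζ` with a root of unity `ζ`, at the embedding `s`. -/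
def Special (s : K →+* ℂ) (τ : K) : Prop :=
  ∃ (ζ : ℂ) (k : ℕ), k ≠ 0 ∧ ζ ^ k = 1 ∧ s τ = ζ + ζ⁻¹

/-- At the embedding `s`, the curve `z + 1/z = c x² + t` has loops around the zeros `± m` of
`c x² + t`, separated from each other, and `p` and `q` are on the same side. -/
def SameSide (s : K →+* ℂ) (c t p q : K) : Prop := ∃ (m : ℂ) (ρ : ℝ), Side s c t p q m ρ

/-- The two symbols on the curve `z + 1/z = F(x)`, of degree two, and their regulators at two
embeddings. -/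
def TwoClasses.{u, v} {K : Type u} [Field K] (F : K[X]) (b : Fin 4 → K)
    (s : Fin 2 → (K →+* ℂ)) : Prop :=
  IsDomain (PRing F) ∧ (∀ l, SmoothPts (s l) F) ∧
  (∀ (L : Type v) [Field L] [Algebra (PRing F) L] [IsFractionRing (PRing F) L],
    ∃ f : POpen F b →+* L, (∀ r : PRing F, f (toP F b r) = algebraMap (PRing F) L r) ∧
      ∀ m l, KQ.map 2 f (symb (pent F b m l)) ∈ Unramified L 2) ∧
  ∃ Γ : Fin 2 → Torus (POpen F b) 1,
    (∀ l θ (y : K), (Γ l).e θ (pcst F b y) = s l y) ∧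
    (Matrix.of fun l k : Fin 2 =>
      (Γ l).reg (symb (pent F b (![0, 2] k) (![1, 3] k)))).det ≠ 0

variable {s : K →+* ℂ} {c t p q : K} {X Z : ℝ → ℂ}

theorem Special.spc {τ : K} (h : Special s τ) : Spc s τ := by
  obtain ⟨ζ, k, hk, h1, h2⟩ := h
  refine ⟨ζ, ?_, h2⟩
  have h3 := congrArg norm h1
  rw [norm_pow, norm_one] at h3
  exact (pow_eq_one_iff_of_nonneg (norm_nonneg _) hk).1 h3

theorem SameSide.loop (h : SameSide s c t p q) (hp : Spc s (c * p ^ 2 + t))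
    (hq : Spc s (c * q ^ 2 + t)) :
    ∃ X Z : ℝ → ℂ, LoopOn s c t X Z ∧ 0 < dpr s X Z p * dpr s X Z q := by
  obtain ⟨m, ρ, h⟩ := h
  exact exists_loop_side h hp hq

theorem SameSide.smooth (h : SameSide s c t p q) : SmoothPts s (qf c t) := by
  obtain ⟨m, ρ, h⟩ := h
  obtain ⟨η, H⟩ := h.sepd
  exact fun x z h => smooth_of_sepd' H h

theorem SameSide.cne (h : SameSide s c t p q) : c ≠ 0 := by
  intro h0
  obtain ⟨m, ρ, h⟩ := h
  exact h.cne (by rw [h0, map_zero])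

theorem LoopOn.torus (h : LoopOn s c t X Z) (hp : Spc s (c * p ^ 2 + t))
    (hq : Spc s (c * q ^ 2 + t)) :
    ∃ Γ : Torus (POpen (qf c t) (pts p q)) 1,
      (∀ θ (y : K), Γ.e θ (pcst (qf c t) (pts p q) y) = s y) ∧
      Γ.reg (symb (pent (qf c t) (pts p q) 0 1)) = dpr s X Z p ∧
      Γ.reg (symb (pent (qf c t) (pts p q) 2 3)) = dpr s X Z q := by
  have hp' : Spc s (c * (-p) ^ 2 + t) := by rwa [neg_sq]
  have hq' : Spc s (c * (-q) ^ 2 + t) := by rwa [neg_sq]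
  have hP : ∀ y, PtS s (qf c t) (pts p q) (X y) (Z y) := by
    intro y
    refine ⟨?_, fun m => ?_⟩
    · rw [eval₂_qf]
      exact h.eq y
    · fin_cases m
      · exact h.ne p hp y
      · exact h.ne (-p) hp' y
      · exact h.ne q hq y
      · exact h.ne (-q) hq' y
  refine ⟨mkS h.hX h.nZ.smooth h.hX1 h.hZ1 hP, fun θ y => ?_, ?_, ?_⟩
  · rw [mkS_e, PtS.evA_pcst]
  · rw [mkS_reg h.hX h.nZ]
    rfl
  · rw [mkS_reg h.hX h.nZ]
    rfl

theorem det_ne {a b c d : ℝ} (h : a * b < 0 ∧ 0 < c * d ∨ 0 < a * b ∧ c * d < 0) :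
    a * d - b * c ≠ 0 := by
  intro h0
  have h1 : (a * b) * (c * d) = (a * d) * (b * c) := by ring
  have h2 : a * d = b * c := by linarith
  rw [h2] at h1
  have h3 : 0 ≤ (a * b) * (c * d) := by
    rw [h1]
    exact mul_self_nonneg _
  rcases h with ⟨h4, h5⟩ | ⟨h4, h5⟩
  · nlinarith [mul_neg_of_neg_of_pos h4 h5]
  · nlinarith [mul_neg_of_pos_of_neg h4 h5]

theorem integral_qf (hc : IsIntegral ℤ c) (ht : IsIntegral ℤ t) (i : ℕ) :
    IsIntegral ℤ ((qf c t).coeff i) := by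
  unfold qf
  rw [coeff_add, coeff_C_mul, coeff_X_pow, coeff_C]
  refine IsIntegral.add ?_ ?_
  · split_ifs
    · rwa [mul_one]
    · rw [mul_zero]
      exact isIntegral_zero
  · split_ifs
    · exact ht
    · exact isIntegral_zero

theorem twoClasses.{u, v} {K : Type u} [Field K] {s : Fin 2 → (K →+* ℂ)} {c t p q : K}
    (hc : IsIntegral ℤ c)
    (ht : IsIntegral ℤ t) (hp : IsIntegral ℤ p) (hq : IsIntegral ℤ q)
    (sp : ∀ l, Special (s l) (c * p ^ 2 + t)) (sq : ∀ l, Special (s l) (c * q ^ 2 + t))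
    (h : (SameSide (s 0) c t p q ∧ SameSide (s 1) c t p (-q)) ∨
      (SameSide (s 0) c t p (-q) ∧ SameSide (s 1) c t p q)) :
    TwoClasses.{u, v} (qf c t) (pts p q) s := by
  have hc0 : c ≠ 0 := by
    rcases h with ⟨h, -⟩ | ⟨h, -⟩ <;> exact h.cne
  have hdegF : 0 < (qf c t).natDegree := by
    rw [natDegree_qf hc0]
    norm_num
  have sq' : ∀ l, Special (s l) (c * (-q) ^ 2 + t) := fun l => by
    rw [neg_sq]
    exact sq l
  have hloops : ∀ l, ∃ X Z : ℝ → ℂ, LoopOn (s l) c t X Z := by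
    intro l
    fin_cases l
    · rcases h with ⟨h, -⟩ | ⟨h, -⟩
      · obtain ⟨X, Z, h1, -⟩ := h.loop (sp 0).spc (sq 0).spc
        exact ⟨X, Z, h1⟩
      · obtain ⟨X, Z, h1, -⟩ := h.loop (sp 0).spc (sq' 0).spc
        exact ⟨X, Z, h1⟩
    · rcases h with ⟨-, h⟩ | ⟨-, h⟩
      · obtain ⟨X, Z, h1, -⟩ := h.loop (sp 1).spc (sq' 1).spc
        exact ⟨X, Z, h1⟩
      · obtain ⟨X, Z, h1, -⟩ := h.loop (sp 1).spc (sq 1).spc
        exact ⟨X, Z, h1⟩
  refine ⟨isDomain_PRing hdegF, fun l => ?_, ?_, ?_⟩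
  · fin_cases l
    · rcases h with ⟨h, -⟩ | ⟨h, -⟩ <;> exact h.smooth
    · rcases h with ⟨-, h⟩ | ⟨-, h⟩ <;> exact h.smooth
  · intro L _ _ _
    have hinj : Function.Injective (algebraMap (PRing (qf c t)) L) := IsFractionRing.injective _ _
    have hdom : IsDomain (PRing (qf c t)) := isDomain_PRing hdegF
    have hne : algebraMap (PRing (qf c t)) L (pDel (qf c t) (pts p q)) ≠ 0 := by
      rw [Ne, map_eq_zero_iff _ hinj]
      exact pDel_ne_zero (pts p q)
    refine ⟨liftP (algebraMap (PRing (qf c t)) L) hne, fun r => liftP_toP _ _ _,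
      fun m l => symb_mem_unramified _ (s 0) (integral_qf hc ht) (fun m => ?_) m l
        (fun m => ?_)⟩
    · fin_cases m
      · exact hp
      · exact hp.neg
      · exact hq
      · exact hq.neg
    · fin_cases m
      · show Special (s 0) ((qf c t).eval p)
        rw [eval_qf]
        exact sp 0
      · show Special (s 0) ((qf c t).eval (-p))
        rw [eval_qf, neg_sq]
        exact sp 0
      · show Special (s 0) ((qf c t).eval q)
        rw [eval_qf]
        exact sq 0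
      · show Special (s 0) ((qf c t).eval (-q))
        rw [eval_qf, neg_sq]
        exact sq 0
  · have hsign : ∃ X₀ Z₀ X₁ Z₁ : ℝ → ℂ, LoopOn (s 0) c t X₀ Z₀ ∧ LoopOn (s 1) c t X₁ Z₁ ∧
        (dpr (s 0) X₀ Z₀ p * dpr (s 0) X₀ Z₀ q < 0 ∧ 0 < dpr (s 1) X₁ Z₁ p * dpr (s 1) X₁ Z₁ q ∨
        0 < dpr (s 0) X₀ Z₀ p * dpr (s 0) X₀ Z₀ q ∧
          dpr (s 1) X₁ Z₁ p * dpr (s 1) X₁ Z₁ q < 0) := by
      rcases h with ⟨h0, h1⟩ | ⟨h0, h1⟩
      · obtain ⟨X₀, Z₀, l0, n0⟩ := h0.loop (sp 0).spc (sq 0).spc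
        obtain ⟨X₁, Z₁, l1, n1⟩ := h1.loop (sp 1).spc (sq' 1).spc
        rw [dpr_neg, mul_neg, neg_pos] at n1
        exact ⟨X₀, Z₀, X₁, Z₁, l0, l1, Or.inr ⟨n0, n1⟩⟩
      · obtain ⟨X₀, Z₀, l0, n0⟩ := h0.loop (sp 0).spc (sq' 0).spc
        obtain ⟨X₁, Z₁, l1, n1⟩ := h1.loop (sp 1).spc (sq 1).spc
        rw [dpr_neg, mul_neg, neg_pos] at n0
        exact ⟨X₀, Z₀, X₁, Z₁, l0, l1, Or.inl ⟨n0, n1⟩⟩
    obtain ⟨X₀, Z₀, X₁, Z₁, l0, l1, hs⟩ := hsign
    obtain ⟨Γ₀, e0, a0, b0⟩ := l0.torus (sp 0).spc (sq 0).spc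
    obtain ⟨Γ₁, e1, a1, b1⟩ := l1.torus (sp 1).spc (sq 1).spc
    refine ⟨![Γ₀, Γ₁], fun l => ?_, ?_⟩
    · fin_cases l
      · exact e0
      · exact e1
    · rw [Matrix.det_fin_two]
      have h1 := det_ne hs
      rw [← a0, ← b0, ← a1, ← b1] at h1
      exact h1

section unit

variable {K : Type*} [Field K]

theorem norm_cpx (s : K →+* ℝ) (x : K) : ‖(Complex.ofRealHom.comp s : K →+* ℂ) x‖ = |s x| := by
  show ‖((s x : ℝ) : ℂ)‖ = |s x|
  rw [Complex.norm_real, Real.norm_eq_abs]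

theorem Special.abs_le {s : K →+* ℝ} {τ : K} (h : Special (Complex.ofRealHom.comp s) τ) :
    |s τ| ≤ 2 := by
  obtain ⟨ζ, hζ, hζ'⟩ := h.spc
  rw [← norm_cpx, hζ']
  refine (norm_add_le _ _).trans ?_
  rw [norm_inv, hζ]
  norm_num

/-- For real embeddings, the condition is easy. -/
theorem sameSide_real {s : K →+* ℝ} {c t p q : K} (hp : |s (c * p ^ 2 + t)| ≤ 2)
    (h1 : 2 < |s t|) (h2 : 0 ≤ s (p * q)) :
    SameSide (Complex.ofRealHom.comp s) c t p q := by
  have e : s (c * p ^ 2 + t) = s c * (s p) ^ 2 + s t := by simp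
  rw [e] at hp
  rw [map_mul] at h2
  have hp0 : s p ≠ 0 := by
    intro h0
    rw [h0] at hp
    norm_num at hp
    linarith
  have hpp : 0 < (s p) ^ 2 := by positivity
  have hc0 : s c ≠ 0 := by
    intro h0
    rw [h0] at hp
    norm_num at hp
    linarith
  have hm : 0 < -(s t) / s c := by
    have h3 := abs_le.1 hp
    rcases lt_or_gt_of_ne hc0 with h4 | h4
    · have h5 : 0 < s t := by
        by_contra hcon
        push Not at hcon
        rw [abs_of_nonpos hcon] at h1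
        nlinarith [h3.1]
      exact div_pos_of_neg_of_neg (by linarith) h4
    · have h5 : s t < 0 := by
        by_contra hcon
        push Not at hcon
        rw [abs_of_nonneg hcon] at h1
        nlinarith [h3.2]
      exact div_pos (by linarith) h4
  set M : ℝ := √(-(s t) / s c) with hM
  have hM2 : M ^ 2 = -(s t) / s c := Real.sq_sqrt hm.le
  have hM0 : 0 < M := Real.sqrt_pos.2 hm
  have hcM : s c * M ^ 2 = -(s t) := by
    rw [hM2]
    field_simp
  have habs : |s c| * M ^ 2 = |s t| := by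
    have h3 := congrArg abs hcM
    rw [abs_mul, abs_neg, abs_of_pos (by positivity : 0 < M ^ 2)] at h3
    exact h3
  have key : ∀ ε : ℝ, ε ^ 2 = 1 → 0 < ε * s p →
      Side (Complex.ofRealHom.comp s) c t p q ((ε * M : ℝ) : ℂ) M := by
    intro ε hε hεp
    have hε0 : |ε| = 1 := by
      have h3 : |ε| ^ 2 = 1 := by rw [sq_abs, hε]
      exact (pow_eq_one_iff_of_nonneg (abs_nonneg _) (by norm_num)).1 h3
    have hn : ‖((ε * M : ℝ) : ℂ)‖ = M := by
      rw [Complex.norm_real, Real.norm_eq_abs, abs_mul, hε0, one_mul, abs_of_pos hM0]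
    have hεq : 0 ≤ ε * s q := by
      have h3 : 0 ≤ (ε * s p) * (ε * s q) := by
        have : (ε * s p) * (ε * s q) = ε ^ 2 * (s p * s q) := by ring
        rw [this, hε, one_mul]
        exact h2
      exact nonneg_of_mul_nonneg_right h3 hεp
    have hre : ∀ x : K, 0 ≤ ε * s x → M * ‖(Complex.ofRealHom.comp s : K →+* ℂ) x‖ ≤
        (((ε * M : ℝ) : ℂ) * (starRingEnd ℂ) ((Complex.ofRealHom.comp s : K →+* ℂ) x)).re := by
      intro x hx
      rw [norm_cpx]
      show M * |s x| ≤ (((ε * M : ℝ) : ℂ) * (starRingEnd ℂ) ((s x : ℝ) : ℂ)).re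
      rw [Complex.conj_ofReal, ← Complex.ofReal_mul, Complex.ofReal_re]
      have h3 : |s x| = ε * s x := by
        rw [← abs_of_nonneg hx, abs_mul, hε0, one_mul]
      rw [h3]
      exact le_of_eq (by ring)
    refine ⟨?_, hM0, hn.ge, ?_, hre p hεp.le, hre q hεq⟩
    · show ((s c : ℝ) : ℂ) * ((ε * M : ℝ) : ℂ) ^ 2 + ((s t : ℝ) : ℂ) = 0
      have h3 : s c * (ε * M) ^ 2 + s t = 0 := by
        have : s c * (ε * M) ^ 2 = ε ^ 2 * (s c * M ^ 2) := by ring
        rw [this, hε, hcM]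
        ring
      exact_mod_cast congrArg (fun x : ℝ => (x : ℂ)) h3
    · rw [norm_cpx, hn]
      have : |s c| * (M * (2 * M - M)) = |s c| * M ^ 2 := by ring
      rw [this, habs]
      exact h1
  rcases lt_or_gt_of_ne hp0 with h3 | h3
  · exact ⟨_, _, key (-1) (by norm_num) (by linarith)⟩
  · exact ⟨_, _, key 1 (by norm_num) (by linarith)⟩

theorem big_unit {s : K →+* ℝ} {w : K} (hw : w ≠ 0) (h : |s w| ≠ 1) :
    2 < |s (-(w + w⁻¹))| := by
  have hr0 : s w ≠ 0 := (map_ne_zero s).2 hw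
  rw [map_neg, abs_neg, map_add, map_inv₀]
  set r : ℝ := s w with hr
  have key : ∀ r : ℝ, 0 < r → r ≠ 1 → 2 < r + r⁻¹ := by
    intro r hr hr1
    have h1 : 0 < (r - 1) ^ 2 := by
      have : r - 1 ≠ 0 := sub_ne_zero.2 hr1
      positivity
    have h2 : r + r⁻¹ - 2 = (r - 1) ^ 2 / r := by
      field_simp
      ring
    have h3 : 0 < (r - 1) ^ 2 / r := by positivity
    linarith
  rcases lt_or_gt_of_ne hr0 with h0 | h0
  · have h1 := key (-r) (by linarith) (fun h' => h (by rw [abs_of_neg h0, h']))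
    rw [inv_neg] at h1
    rw [abs_of_neg (by linarith)]
    linarith
  · have h1 := key r h0 (fun h' => h (by rw [abs_of_pos h0, h']))
    rw [abs_of_pos (by linarith)]
    linarith

theorem val_unit {w : K} (hw : w ≠ 0) :
    w * (1 + w⁻¹) ^ 2 + -(w + w⁻¹) = 2 ∧ w * (1 - w⁻¹) ^ 2 + -(w + w⁻¹) = -2 := by
  constructor
  · field_simp
    ring
  · field_simp
    ring

theorem sameSide_large {s : K →+* ℝ} {w : K} (hw : w ≠ 0) (h : 1 < |s w|) :
    SameSide (Complex.ofRealHom.comp s) w (-(w + w⁻¹)) (1 + w⁻¹) (1 - w⁻¹) := by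
  refine sameSide_real ?_ (big_unit hw h.ne') ?_
  · rw [(val_unit hw).1, map_ofNat]
    norm_num
  have e : s ((1 + w⁻¹) * (1 - w⁻¹)) = 1 - (|s w| ^ 2)⁻¹ := by
    rw [map_mul, map_add, map_sub, map_one, map_inv₀, sq_abs]
    ring
  rw [e, sub_nonneg]
  exact inv_le_one_of_one_le₀ (one_le_pow₀ h.le)

theorem sameSide_small {s : K →+* ℝ} {w : K} (hw : w ≠ 0) (h : |s w| < 1) :
    SameSide (Complex.ofRealHom.comp s) w (-(w + w⁻¹)) (1 + w⁻¹) (-(1 - w⁻¹)) := by
  refine sameSide_real ?_ (big_unit hw h.ne) ?_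
  · rw [(val_unit hw).1, map_ofNat]
    norm_num
  · have hr0 : s w ≠ 0 := (map_ne_zero s).2 hw
    have e : s ((1 + w⁻¹) * -(1 - w⁻¹)) = (|s w| ^ 2)⁻¹ - 1 := by
      rw [map_mul, map_neg, map_add, map_sub, map_one, map_inv₀, sq_abs]
      ring
    rw [e, sub_nonneg]
    exact (one_le_inv₀ (by positivity)).2 (pow_le_one₀ (abs_nonneg _) h.le)

theorem special_two (s : K →+* ℂ) : Special s 2 :=
  ⟨1, 1, one_ne_zero, one_pow 1, by rw [inv_one, map_ofNat]; norm_num⟩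

theorem special_neg_two (s : K →+* ℂ) : Special s (-2) :=
  ⟨-1, 2, two_ne_zero, by norm_num, by rw [map_neg, map_ofNat]; norm_num⟩

end unit

/-- Two real embeddings. -/
theorem twoClasses_real.{u, v} {K : Type u} [Field K] {s : Fin 2 → (K →+* ℝ)} {c t p q : K}
    (hc : IsIntegral ℤ c) (ht : IsIntegral ℤ t) (hp : IsIntegral ℤ p) (hq : IsIntegral ℤ q)
    (sp : ∀ l, Special (Complex.ofRealHom.comp (s l)) (c * p ^ 2 + t))
    (sq : ∀ l, Special (Complex.ofRealHom.comp (s l)) (c * q ^ 2 + t))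
    (h1 : ∀ l, 2 < |s l t|) (h2 : s 0 (p * q) * s 1 (p * q) ≤ 0) :
    TwoClasses.{u, v} (qf c t) (pts p q) fun l => Complex.ofRealHom.comp (s l) := by
  refine twoClasses hc ht hp hq sp sq ?_
  have key : ∀ l, 0 ≤ s l (p * q) → SameSide (Complex.ofRealHom.comp (s l)) c t p q := fun l h =>
    sameSide_real (sp l).abs_le (h1 l) h
  have key' : ∀ l, s l (p * q) ≤ 0 → SameSide (Complex.ofRealHom.comp (s l)) c t p (-q) :=
    fun l h => sameSide_real (sp l).abs_le (h1 l) (by rw [mul_neg, map_neg]; linarith)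
  rcases mul_nonpos_iff.1 h2 with ⟨h3, h4⟩ | ⟨h3, h4⟩
  · exact Or.inl ⟨key 0 h3, key' 1 h4⟩
  · exact Or.inr ⟨key' 0 h3, key 1 h4⟩

open NumberField in
theorem twoClasses_unit.{u, v} {K : Type u} [Field K] [NumberField K]
    (hK : Module.finrank ℚ K = 2) {s₁ s₂ : K →+* ℝ} (hs : s₁ ≠ s₂) (w : (𝓞 K)ˣ)
    (h1 : (w : K) ^ 2 ≠ 1) :
    TwoClasses.{u, v} (qf (w : K) (-((w : K) + (w : K)⁻¹))) (pts (1 + (w : K)⁻¹) (1 - (w : K)⁻¹))
      ![cpx s₁, cpx s₂] := by
  have hw0 : (w : K) ≠ 0 := NumberField.Units.coe_ne_zero w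
  have iw : IsIntegral ℤ (w : K) := RingOfIntegers.isIntegral_coe _
  have iw' : IsIntegral ℤ (w : K)⁻¹ := by
    have h4 : ((w⁻¹ : (𝓞 K)ˣ) : K) = (w : K)⁻¹ := by
      refine eq_inv_of_mul_eq_one_left ?_
      rw [← map_mul, ← Units.val_mul, inv_mul_cancel, Units.val_one, map_one]
    rw [← h4]
    exact RingOfIntegers.isIntegral_coe _
  obtain ⟨v1, v2⟩ := val_unit hw0
  refine twoClasses iw (iw.add iw').neg (isIntegral_one.add iw') (isIntegral_one.sub iw')
    (fun l => by rw [v1]; exact special_two _) (fun l => by rw [v2]; exact special_neg_two _) ?_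
  have hm := mul_eq hK hs w
  have p1 : 0 ≤ |s₁ (w : K)| := abs_nonneg _
  have p2 : 0 ≤ |s₂ (w : K)| := abs_nonneg _
  rcases lt_trichotomy |s₁ (w : K)| 1 with h4 | h4 | h4
  · have h5 : 1 < |s₂ (w : K)| := by nlinarith
    exact Or.inr ⟨sameSide_small hw0 h4, sameSide_large hw0 h5⟩
  · exfalso
    apply h1
    apply s₁.injective
    rw [map_pow, ← sq_abs, h4, one_pow, map_one]
  · have h5 : |s₂ (w : K)| < 1 := by nlinarith
    exact Or.inl ⟨sameSide_large hw0 h4, sameSide_small hw0 h5⟩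

end Pool.Agent.TH690.UE
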