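import Pool.Agent.TH826.UH.Final
import Pool.Agent.TH690.UF.Final
set_option autoImplicit false

/-!
Loops on the curves `z + 1/z = c x² + t` with special values at the points `± p`, `± q`, and the signs
of the regulators of the symbols `{z, (x - p)/(x + p)}` and `{z, (x - q)/(x + q)}` on them.
-/

namespace Pool.Agent.TH690.UE

open Polynomial Metric

open Pool.Agent.TH826.MK (Torus symb circ norm_circ contDiff_circ circ_add_one)

open Pool.Agent.TH826.HD Pool.Agent.TH826.UH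

open scoped Real

variable {K : Type*} [Field K]

/-- The polynomial `c x² + t`. -/
noncomputable def qf (c t : K) : K[X] := C c * X ^ 2 + C t

/-- The four points `p, -p, q, -q`. -/
def pts (p q : K) : Fin 4 → K := ![p, -p, q, -q]

theorem eval₂_qf (s : K →+* ℂ) (c t : K) (x : ℂ) : (qf c t).eval₂ s x = s c * x ^ 2 + s t := by
  unfold qf
  simp

theorem eval_qf (c t x : K) : (qf c t).eval x = c * x ^ 2 + t := by
  unfold qf
  simp

theorem map_qf (s : K →+* ℂ) (c t : K) : (qf c t).map s = qf (s c) (s t) := by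
  unfold qf
  simp

theorem natDegree_qf {c : K} (hc : c ≠ 0) (t : K) : (qf c t).natDegree = 2 := by
  unfold qf
  rw [natDegree_add_C, natDegree_C_mul_X_pow 2 c hc]

theorem leadingCoeff_qf {c : K} (hc : c ≠ 0) (t : K) : (qf c t).leadingCoeff = c := by
  rw [leadingCoeff, natDegree_qf hc t]
  unfold qf
  simp

/-- The conditions on the curve `z + 1/z = c x² + t` at an embedding: the points `p` and `-p`, and the
points `p` and `q`, are far from each other. -/
structure Far (s : K →+* ℂ) (c p q : K) (ρ d : ℝ) : Prop where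
  pos : 0 < ρ
  dpos : 0 < d
  half : ρ ≤ ‖s p‖
  sep : 4 < ‖s c‖ * (ρ * (2 * ‖s p‖ - ρ))
  big : 1 ≤ ‖s c‖ * d ^ 2
  far1 : ρ + d ≤ 2 * ‖s p‖
  far2 : ρ + d ≤ ‖s p - s q‖

/-- The element `τ` of `K` is a sum `ζ + 1/ζ` with `|ζ| = 1`, at the embedding `s`. -/
def Spc (s : K →+* ℂ) (τ : K) : Prop := ∃ ζ : ℂ, ‖ζ‖ = 1 ∧ s τ = ζ + ζ⁻¹

variable {s : K →+* ℂ} {c t p q : K} {ρ d : ℝ}

theorem Far.cne (h : Far s c p q ρ d) : s c ≠ 0 := by
  intro h0
  have h1 := h.sep
  rw [h0, norm_zero, zero_mul] at h1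
  linarith

theorem Far.sepd (h : Far s c p q ρ d) (hp : Spc s (c * p ^ 2 + t)) :
    ∃ η, Sepd ((qf c t).map s) (fun j : Fin 2 => (![s p, -s p] : Fin 2 → ℂ) j) ρ η := by
  obtain ⟨ζ, hζ, hζ'⟩ := hp
  have hτ : ‖s (c * p ^ 2 + t)‖ ≤ 2 := by
    rw [hζ']
    refine (norm_add_le _ _).trans ?_
    rw [norm_inv, hζ]
    norm_num
  have hv : s (c * p ^ 2 + t) = s c * (s p) ^ 2 + s t := by simp
  refine ⟨‖s c‖ * (ρ * (2 * ‖s p‖ - ρ)) - 4, ?_⟩
  have hsep := h.sep
  have h2p : ‖s p - -s p‖ = 2 * ‖s p‖ := by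
    rw [sub_neg_eq_add, ← two_mul, norm_mul, Complex.norm_ofNat]
  refine ⟨?_, by norm_num, h.pos, fun i j hij => ?_, fun j => ?_, by linarith, fun x hx => ?_⟩
  · rw [map_qf, natDegree_qf h.cne]
  · have hh := h.half
    fin_cases i <;> fin_cases j
    · exact absurd rfl hij
    · show 2 * ρ ≤ ‖s p - -s p‖
      rw [h2p]
      linarith
    · show 2 * ρ ≤ ‖-s p - s p‖
      rw [norm_sub_rev, h2p]
      linarith
    · exact absurd rfl hij
  · have h1 : ((qf c t).map s).eval (s p) = s (c * p ^ 2 + t) := by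
      rw [map_qf, eval_qf, hv]
    have h2 : ((qf c t).map s).eval (-s p) = s (c * p ^ 2 + t) := by
      rw [map_qf, eval_qf, hv, neg_sq]
    fin_cases j
    · show ‖((qf c t).map s).eval (s p)‖ ≤ 2
      rw [h1]
      exact hτ
    · show ‖((qf c t).map s).eval (-s p)‖ ≤ 2
      rw [h2]
      exact hτ
  · have hx0 : ρ ≤ ‖x - s p‖ := hx 0
    have hx1 : ρ ≤ ‖x - -s p‖ := hx 1
    have e1 : ((qf c t).map s).eval x = s c * ((x - s p) * (x - -s p)) + s (c * p ^ 2 + t) := by
      rw [map_qf, eval_qf, hv]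
      ring
    have h3 : 2 * ‖s p‖ ≤ ‖x - s p‖ + ‖x - -s p‖ := by
      rw [← h2p]
      have : s p - -s p = (x - -s p) - (x - s p) := by ring
      rw [this]
      refine (norm_sub_le _ _).trans ?_
      linarith
    have h4 : ρ * (2 * ‖s p‖ - ρ) ≤ ‖x - s p‖ * ‖x - -s p‖ := by
      have hh := h.half
      have hpos := h.pos
      nlinarith [mul_nonneg (sub_nonneg.2 hx0) (sub_nonneg.2 hx1)]
    have h5 : ‖s c‖ * (ρ * (2 * ‖s p‖ - ρ)) ≤ ‖s c * ((x - s p) * (x - -s p))‖ := by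
      rw [norm_mul, norm_mul]
      exact mul_le_mul_of_nonneg_left h4 (norm_nonneg _)
    rw [e1]
    have h6 := norm_sub_le (s c * ((x - s p) * (x - -s p)) + s (c * p ^ 2 + t))
      (s (c * p ^ 2 + t))
    rw [add_sub_cancel_right] at h6
    linarith

/-- The difference of the pairings of `Z` with `X - p` and `X + p`. -/
noncomputable def dpr (s : K →+* ℂ) (X Z : ℝ → ℂ) (p : K) : ℝ :=
  pr Z (fun y => X y - s p) - pr Z (fun y => X y - s (-p))

theorem dpr_neg (s : K →+* ℂ) (X Z : ℝ → ℂ) (p : K) : dpr s X Z (-p) = -dpr s X Z p := by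
  unfold dpr
  rw [neg_neg]
  ring

/-- A loop in the curve `z + 1/z = c x² + t` over the embedding `s`. -/
structure LoopOn (s : K →+* ℂ) (c t : K) (X Z : ℝ → ℂ) : Prop where
  hX : ContDiff ℝ 2 X
  nZ : NZ Z
  hX1 : ∀ y, X (y + 1) = X y
  hZ1 : ∀ y, Z (y + 1) = Z y
  eq : ∀ y, Z y ^ 2 - (s c * X y ^ 2 + s t) * Z y + 1 = 0
  ne : ∀ w : K, Spc s (c * w ^ 2 + t) → ∀ y, X y ≠ s w

theorem exists_loop (h : Far s c p q ρ d) (hp : Spc s (c * p ^ 2 + t))
    (hq : Spc s (c * q ^ 2 + t)) :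
    ∃ X Z : ℝ → ℂ, LoopOn s c t X Z ∧ dpr s X Z p * dpr s X Z q < 0 := by
  obtain ⟨η, H⟩ := h.sepd hp
  obtain ⟨x, han, hdisc, hprod, -⟩ := H.exists_branches
  obtain ⟨R, hR, hRη⟩ := exists_radius H.eta
  have hR0 : 0 < R := one_pos.trans hR
  have hz := nz_circ hR0
  set u : ℝ → ℂ := fun t => circ R t + (circ R t)⁻¹ with hu
  have hucd : ContDiff ℝ 2 u := (contDiff_circ R).add ((contDiff_circ R).inv hz.ne_zero)
  have hub : ∀ t, u t ∈ ball (0 : ℂ) (2 + η) := by
    intro t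
    rw [mem_ball_zero_iff]
    refine (norm_add_le _ _).trans_lt ?_
    rw [norm_inv, norm_circ hR0.le]
    exact hRη
  have hper : ∀ t, u (t + 1) = u t := fun t => by
    simp only [hu, circ_add_one]
  set Y : ℝ → ℂ := fun y => x 0 (u y) with hY
  have hYcd : ContDiff ℝ 2 Y := by
    rw [contDiff_iff_contDiffAt]
    intro t
    exact ((han 0 _ (hub t)).contDiffAt.restrict_scalars ℝ).comp t hucd.contDiffAt
  have hYper : ∀ t, Y (t + 1) = Y t := fun t => by
    simp only [hY, hper]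
  have hYd : ∀ t, ‖Y t - s p‖ < ρ := fun y => hdisc 0 _ (hub y)
  have hval : ∀ y, s c * Y y ^ 2 + s t = u y := by
    intro y
    have h1 := eval_map_sub (hprod _ (hub y)) (Y y)
    rw [Finset.prod_eq_zero (Finset.mem_univ 0) (by simp [hY]), mul_zero, eval₂_qf] at h1
    exact sub_eq_zero.1 h1
  have hne : ∀ w : K, Spc s (c * w ^ 2 + t) → ∀ y, Y y ≠ s w := by
    intro w hw y h
    obtain ⟨ζ, hζ, hζ'⟩ := hw
    have hζ0 : ζ ≠ 0 := fun h0 => by rw [h0, norm_zero] at hζ; exact zero_ne_one hζ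
    have h1 := hval y
    rw [h] at h1
    have h1' : ζ + ζ⁻¹ = u y := by
      rw [← hζ', ← h1]
      simp
    have h2 := hz.ne_zero y
    have h3 : (circ R y - ζ) * (circ R y - ζ⁻¹) = 0 := by
      have h4 : u y = circ R y + (circ R y)⁻¹ := rfl
      rw [h4] at h1'
      have h5 : circ R y * (circ R y)⁻¹ = 1 := mul_inv_cancel₀ h2
      have h6 : ζ * ζ⁻¹ = 1 := mul_inv_cancel₀ hζ0
      linear_combination (-circ R y) * h1' - h5 + h6
    rcases mul_eq_zero.1 h3 with h4 | h4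
    · have h5 := congrArg norm (sub_eq_zero.1 h4)
      rw [norm_circ hR0.le, hζ] at h5
      exact hR.ne' h5
    · have h5 := congrArg norm (sub_eq_zero.1 h4)
      rw [norm_circ hR0.le, norm_inv, hζ, inv_one] at h5
      exact hR.ne' h5
  have hLoop : LoopOn s c t Y (circ R) := by
    refine ⟨hYcd, hz, hYper, circ_add_one R, fun y => ?_, hne⟩
    rw [hval y]
    have h2 : circ R y * (circ R y)⁻¹ = 1 := mul_inv_cancel₀ (hz.ne_zero y)
    have h4 : u y = circ R y + (circ R y)⁻¹ := rfl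
    rw [h4]
    linear_combination -h2
  refine ⟨Y, circ R, hLoop, ?_⟩
  have nY : ∀ w : K, Spc s (c * w ^ 2 + t) → NZ fun y => Y y - s w := fun w hw =>
    ⟨hYcd.sub contDiff_const, fun y => sub_ne_zero.2 (hne w hw y)⟩
  have hc0 : s c ≠ 0 := h.cne
  -- the sum of the two pairings
  have hsum : ∀ w : K, Spc s (c * w ^ 2 + t) →
      pr (circ R) (fun y => Y y - s w) + pr (circ R) (fun y => Y y - s (-w)) =
        2 * π * Real.log ‖s c‖ := by
    intro w hw
    have hw' : Spc s (c * (-w) ^ 2 + t) := by rwa [neg_sq]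
    rw [← pr_mul hz (nY w hw) (nY (-w) hw')]
    have hcc : NZ fun _ : ℝ => s c := ⟨contDiff_const, fun _ => hc0⟩
    have h1 := pr_mul hz hcc ((nY w hw).mul (nY (-w) hw'))
    obtain ⟨ζ, hζ, hζ'⟩ := hw
    have h2 : pr (circ R) (fun y => s c * ((Y y - s w) * (Y y - s (-w)))) = 0 := by
      rw [← pr_circ hR hζ]
      congr 1
      funext y
      have h3 := hval y
      have h4 : u y = circ R y + (circ R y)⁻¹ := rfl
      rw [← h4, ← h3, ← hζ']
      simp only [map_add, map_mul, map_pow, map_neg]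
      ring
    rw [h2, pr_const hR0] at h1
    linarith
  have hlt : ∀ w : ℂ, ρ + d ≤ ‖s p - w‖ → pr (circ R) (fun y => Y y - w) <
      -(2 * π * Real.log d) := fun w hw =>
    pr_lt_of_disc hR hYcd hYper h.dpos hYd hw
  have hdpos := h.dpos
  have hcn : 0 < ‖s c‖ := norm_pos_iff.2 hc0
  have hlog : 0 ≤ Real.log ‖s c‖ + 2 * Real.log d := by
    have h1 := Real.log_nonneg h.big
    rw [Real.log_mul hcn.ne' (by positivity), Real.log_pow] at h1
    push_cast at h1
    exact h1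
  have hlogpi : 0 ≤ 2 * π * Real.log ‖s c‖ + 2 * (2 * π * Real.log d) := by
    have h1 : 2 * π * Real.log ‖s c‖ + 2 * (2 * π * Real.log d) =
        2 * π * (Real.log ‖s c‖ + 2 * Real.log d) := by ring
    rw [h1]
    have := Real.pi_pos
    positivity
  have hSp := hsum p hp
  have hSq := hsum q hq
  have l1 : pr (circ R) (fun y => Y y - s (-p)) < -(2 * π * Real.log d) := by
    refine hlt _ ?_
    rw [map_neg, sub_neg_eq_add, ← two_mul, norm_mul, Complex.norm_ofNat]
    exact h.far1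
  have l2 : pr (circ R) (fun y => Y y - s q) < -(2 * π * Real.log d) := hlt _ h.far2
  refine mul_neg_of_pos_of_neg ?_ ?_
  · show 0 < pr (circ R) (fun y => Y y - s p) - pr (circ R) (fun y => Y y - s (-p))
    linarith
  · show pr (circ R) (fun y => Y y - s q) - pr (circ R) (fun y => Y y - s (-q)) < 0
    linarith

end Pool.Agent.TH690.UE
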