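import Pool.Agent.TH690.UE.Loop
import Pool.Agent.TH690.UR.Pair
set_option autoImplicit false

/-!
The signs of the regulators of the symbols `{z, (x - q)/(x + q)}` on the loops around the points `± p`:
they only depend on the side of `q`.
-/

namespace Pool.Agent.TH690.UE

open Polynomial Metric MeasureTheory

open Pool.Agent.TH826.MK (Torus symb circ norm_circ contDiff_circ circ_add_one one_lin wd)

open Pool.Agent.TH826.HD Pool.Agent.TH826.UH

open Pool.Agent.TH690.UR (wn Disc)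

open scoped Real ComplexConjugate

section winding

variable {G H : ℝ → ℂ} {R : ℝ}

theorem wn_mul (hG : NZ G) (hH : NZ H) : wn (fun s => G s * H s) = wn G + wn H := by
  unfold wn
  rw [← intervalIntegral.integral_add (hG.cont_im.intervalIntegrable _ _)
    (hH.cont_im.intervalIntegrable _ _)]
  refine intervalIntegral.integral_congr fun s _ => ?_
  have h1 := congrArg Complex.im (hG.ld_mul hH s)
  rw [Complex.add_im] at h1
  exact h1

theorem wn_circ (hR : 0 < R) : wn (circ R) = 2 * π := by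
  unfold wn
  simp only [ld_circ hR]
  simp

theorem wn_circ_sub (hR : 0 < R) {β : ℂ} (hβ : ‖β‖ < R) :
    wn (fun s => circ R s - β) = 2 * π := by
  have h1 := (one_lin hR hβ.ne).wind
  have hnz := nz_circ_sub hR hβ.ne
  rw [integral_Icc_eq_integral_Ioc, ← intervalIntegral.integral_of_le zero_le_one] at h1
  have h2 := Complex.imCLM.intervalIntegral_comp_comm
    (hnz.cont_ld.intervalIntegrable (μ := volume) 0 1)
  rw [h1] at h2
  unfold wn
  refine h2.trans ?_
  unfold wd
  rw [if_pos hβ]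
  simp

theorem wn_joukowski (hR : 1 < R) {ζ : ℂ} (hζ : ‖ζ‖ = 1) :
    NZ (fun s => circ R s + (circ R s)⁻¹ - (ζ + ζ⁻¹)) ∧
      wn (fun s => circ R s + (circ R s)⁻¹ - (ζ + ζ⁻¹)) = 2 * π := by
  have hR0 : 0 < R := one_pos.trans hR
  have hζ0 : ζ ≠ 0 := fun h => by rw [h, norm_zero] at hζ; exact zero_ne_one hζ
  have h1 : ‖ζ‖ < R := by rw [hζ]; exact hR
  have h2 : ‖ζ⁻¹‖ < R := by rw [norm_inv, hζ, inv_one]; exact hR
  have hz := nz_circ hR0
  have n1 := nz_circ_sub hR0 h1.ne
  have n2 := nz_circ_sub hR0 h2.ne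
  have e : (fun s => circ R s + (circ R s)⁻¹ - (ζ + ζ⁻¹)) = fun s =>
      ((circ R s - ζ) * (circ R s - ζ⁻¹)) / circ R s := by
    funext s
    have h3 := hz.ne_zero s
    field_simp
    ring
  have n3 : NZ fun s => circ R s + (circ R s)⁻¹ - (ζ + ζ⁻¹) := by
    rw [e]
    exact (n1.mul n2).div hz
  refine ⟨n3, ?_⟩
  have h4 := wn_mul n3 hz
  have h5 : (fun s => (circ R s + (circ R s)⁻¹ - (ζ + ζ⁻¹)) * circ R s) = fun s =>
      (circ R s - ζ) * (circ R s - ζ⁻¹) := by
    funext s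
    have h3 := hz.ne_zero s
    field_simp
    ring
  rw [h5, wn_mul n1 n2, wn_circ hR0, wn_circ_sub hR0 h1, wn_circ_sub hR0 h2] at h4
  linarith

theorem pr_circ_eq (hR : 0 < R) (hH : NZ H) :
    pr (circ R) H = Real.log R * wn H - 2 * π * ∫ s in (0 : ℝ)..1, Real.log ‖H s‖ := by
  unfold pr wn
  simp only [ld_circ hR, norm_circ hR.le]
  have i1 : IntervalIntegrable (fun s => Real.log R * (deriv H s / H s).im) volume 0 1 :=
    (continuous_const.mul hH.cont_im).intervalIntegrable _ _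
  have i2 : IntervalIntegrable (fun s => Real.log ‖H s‖ * (2 * π)) volume 0 1 :=
    (hH.cont_log.mul continuous_const).intervalIntegrable _ _
  rw [intervalIntegral.integral_sub i1 i2, intervalIntegral.integral_const_mul,
    intervalIntegral.integral_mul_const]
  ring

end winding

variable {K : Type*} [Field K]

/-- At the embedding `s`, the curve `z + 1/z = c x² + t` has loops around the zeros `± m` of
`c x² + t`, separated from each other, and `p` and `q` are on the same side as `m`. -/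
structure Side (s : K →+* ℂ) (c t p q : K) (m : ℂ) (ρ : ℝ) : Prop where
  root : s c * m ^ 2 + s t = 0
  pos : 0 < ρ
  half : ρ ≤ ‖m‖
  sep : 2 < ‖s c‖ * (ρ * (2 * ‖m‖ - ρ))
  sp : ρ * ‖s p‖ ≤ (m * conj (s p)).re
  sq : ρ * ‖s q‖ ≤ (m * conj (s q)).re

variable {s : K →+* ℂ} {c t p q : K} {m : ℂ} {ρ : ℝ}

theorem Side.cne (h : Side s c t p q m ρ) : s c ≠ 0 := by
  intro h0
  have h1 := h.sep
  rw [h0, norm_zero, zero_mul] at h1
  linarith

theorem Side.sepd (h : Side s c t p q m ρ) :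
    ∃ η, Sepd ((qf c t).map s) (fun j : Fin 2 => (![m, -m] : Fin 2 → ℂ) j) ρ η := by
  have hv : s t = -(s c * m ^ 2) := by linear_combination h.root
  refine ⟨‖s c‖ * (ρ * (2 * ‖m‖ - ρ)) - 2, ?_⟩
  have hsep := h.sep
  have h2p : ‖m - -m‖ = 2 * ‖m‖ := by
    rw [sub_neg_eq_add, ← two_mul, norm_mul, Complex.norm_ofNat]
  refine ⟨?_, by norm_num, h.pos, fun i j hij => ?_, fun j => ?_, by linarith, fun x hx => ?_⟩
  · rw [map_qf, natDegree_qf h.cne]
  · have hh := h.half
    fin_cases i <;> fin_cases j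
    · exact absurd rfl hij
    · show 2 * ρ ≤ ‖m - -m‖
      rw [h2p]
      linarith
    · show 2 * ρ ≤ ‖-m - m‖
      rw [norm_sub_rev, h2p]
      linarith
    · exact absurd rfl hij
  · have h1 : ((qf c t).map s).eval m = 0 := by
      rw [map_qf, eval_qf, h.root]
    have h2 : ((qf c t).map s).eval (-m) = 0 := by
      rw [map_qf, eval_qf, neg_sq, h.root]
    fin_cases j
    · show ‖((qf c t).map s).eval m‖ ≤ 2
      rw [h1, norm_zero]
      norm_num
    · show ‖((qf c t).map s).eval (-m)‖ ≤ 2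
      rw [h2, norm_zero]
      norm_num
  · have hx0 : ρ ≤ ‖x - m‖ := hx 0
    have hx1 : ρ ≤ ‖x - -m‖ := hx 1
    have e1 : ((qf c t).map s).eval x = s c * ((x - m) * (x - -m)) := by
      rw [map_qf, eval_qf, hv]
      ring
    have h3 : 2 * ‖m‖ ≤ ‖x - m‖ + ‖x - -m‖ := by
      rw [← h2p]
      have : m - -m = (x - -m) - (x - m) := by ring
      rw [this]
      refine (norm_sub_le _ _).trans ?_
      linarith
    have h4 : ρ * (2 * ‖m‖ - ρ) ≤ ‖x - m‖ * ‖x - -m‖ := by
      have hh := h.half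
      have hpos := h.pos
      nlinarith [mul_nonneg (sub_nonneg.2 hx0) (sub_nonneg.2 hx1)]
    have h5 : ‖s c‖ * (ρ * (2 * ‖m‖ - ρ)) ≤ ‖s c * ((x - m) * (x - -m))‖ := by
      rw [norm_mul, norm_mul]
      exact mul_le_mul_of_nonneg_left h4 (norm_nonneg _)
    rw [e1]
    linarith

/-- Smoothness of the curve. -/
theorem smooth_of_sepd' {F : K[X]} {n : ℕ} {b : Fin n → ℂ} {η : ℝ} (H : Sepd (F.map s) b ρ η)
    {x z : ℂ} (h : z ^ 2 - F.eval₂ s x * z + 1 = 0) :
    2 * z - F.eval₂ s x ≠ 0 ∨ (derivative F).eval₂ s x * z ≠ 0 := by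
  obtain ⟨y, -, -, hprod, hder⟩ := H.exists_branches
  by_cases h1 : 2 * z - F.eval₂ s x = 0
  · right
    have h2 : F.eval₂ s x = 2 * z := by linear_combination -h1
    have h3 : z ^ 2 = 1 := by
      rw [h2] at h
      linear_combination -h
    have h4 : ‖z‖ = 1 := by
      have h5 := congrArg norm h3
      rw [norm_pow, norm_one] at h5
      exact (pow_eq_one_iff_of_nonneg (norm_nonneg _) (by norm_num)).1 h5
    have hz : z ≠ 0 := by
      rw [← norm_pos_iff, h4]
      exact one_pos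
    have hu : F.eval₂ s x ∈ ball (0 : ℂ) (2 + η) := by
      rw [mem_ball_zero_iff, h2, norm_mul, h4, mul_one]
      have := H.eta
      norm_num
      exact this
    have h5 := eval_map_sub (hprod _ hu) x
    rw [sub_self, eq_comm] at h5
    obtain ⟨j, -, hj⟩ := Finset.prod_eq_zero_iff.1
      ((mul_eq_zero.1 h5).resolve_left H.lead_ne_zero)
    rw [sub_eq_zero] at hj
    have h6 := hder j _ hu
    rw [← hj, Polynomial.derivative_map, Polynomial.eval_map] at h6
    exact mul_ne_zero h6 hz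
  · exact Or.inl h1

section side

variable {w : K}

/-- A point on the same side as `m` is closer to `w` than to `-w`, if `w` is on this side. -/
theorem norm_le_side (hw : ρ * ‖s w‖ ≤ (m * conj (s w)).re) {y : ℂ} (hy : ‖y - m‖ < ρ) :
    ‖y - s w‖ ≤ ‖y - s (-w)‖ := by
  have h1 : 0 ≤ (y * conj (s w)).re := by
    have h2 : (y * conj (s w)).re = (m * conj (s w)).re + ((y - m) * conj (s w)).re := by
      rw [← Complex.add_re]
      congr 1
      ring
    have h3 := Complex.abs_re_le_norm ((y - m) * conj (s w))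
    rw [norm_mul, Complex.norm_conj] at h3
    have h4 := (abs_le.1 h3).1
    have h5 : ‖y - m‖ * ‖s w‖ ≤ ρ * ‖s w‖ :=
      mul_le_mul_of_nonneg_right hy.le (norm_nonneg _)
    linarith
  have h2 : ‖y - s w‖ ^ 2 ≤ ‖y - s (-w)‖ ^ 2 := by
    rw [map_neg, ← Complex.normSq_eq_norm_sq, ← Complex.normSq_eq_norm_sq, Complex.normSq_sub,
      Complex.normSq_sub, Complex.normSq_neg, map_neg, mul_neg, Complex.neg_re]
    linarith
  exact (pow_le_pow_iff_left₀ (norm_nonneg _) (norm_nonneg _) two_ne_zero).1 h2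

theorem far_side (hρ : 0 ≤ ρ) (hm : ρ ≤ ‖m‖) (hw : ρ * ‖s w‖ ≤ (m * conj (s w)).re) :
    ρ ≤ ‖m - s (-w)‖ := by
  have h1 : ‖m‖ ^ 2 ≤ ‖m - s (-w)‖ ^ 2 := by
    rw [map_neg, ← Complex.normSq_eq_norm_sq, ← Complex.normSq_eq_norm_sq, Complex.normSq_sub,
      Complex.normSq_neg, map_neg, mul_neg, Complex.neg_re]
    have h2 := Complex.normSq_nonneg (s w)
    have h3 : 0 ≤ ρ * ‖s w‖ := mul_nonneg hρ (norm_nonneg _)
    linarith
  exact hm.trans ((pow_le_pow_iff_left₀ (norm_nonneg _) (norm_nonneg _) two_ne_zero).1 h1)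

end side

theorem exists_loop_side (h : Side s c t p q m ρ) (hp : Spc s (c * p ^ 2 + t))
    (hq : Spc s (c * q ^ 2 + t)) :
    ∃ X Z : ℝ → ℂ, LoopOn s c t X Z ∧ 0 < dpr s X Z p * dpr s X Z q := by
  obtain ⟨η, H⟩ := h.sepd
  obtain ⟨x, han, hdisc, hprod, -⟩ := H.exists_branches
  obtain ⟨R, hR, hRη⟩ := exists_radius H.eta
  have hR0 : 0 < R := one_pos.trans hR
  have hz := nz_circ hR0
  set u : ℝ → ℂ := fun t => circ R t + (circ R t)⁻¹ with hu
  have hucd : ContDiff ℝ 2 u := (contDiff_circ R).add ((contDiff_circ R).inv hz.ne_zero)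
  have hub : ∀ t, u t ∈ ball (0 : ℂ) (2 + η) := by
    intro t
    rw [mem_ball_zero_iff]
    refine (norm_add_le _ _).trans_lt ?_
    rw [norm_inv, norm_circ hR0.le]
    exact hRη
  have hper : ∀ t, u (t + 1) = u t := fun t => by
    simp only [hu, circ_add_one]
  set Y : ℝ → ℂ := fun y => x 0 (u y) with hY
  have hYcd : ContDiff ℝ 2 Y := by
    rw [contDiff_iff_contDiffAt]
    intro t
    exact ((han 0 _ (hub t)).contDiffAt.restrict_scalars ℝ).comp t hucd.contDiffAt
  have hYper : ∀ t, Y (t + 1) = Y t := fun t => by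
    simp only [hY, hper]
  have hYd : ∀ t, ‖Y t - m‖ < ρ := fun y => hdisc 0 _ (hub y)
  have hval : ∀ y, s c * Y y ^ 2 + s t = u y := by
    intro y
    have h1 := eval_map_sub (hprod _ (hub y)) (Y y)
    rw [Finset.prod_eq_zero (Finset.mem_univ 0) (by simp [hY]), mul_zero, eval₂_qf] at h1
    exact sub_eq_zero.1 h1
  have hdiff : ∀ w : K, ∀ ζ : ℂ, s (c * w ^ 2 + t) = ζ + ζ⁻¹ → ∀ y,
      s c * ((Y y - s w) * (Y y - s (-w))) = circ R y + (circ R y)⁻¹ - (ζ + ζ⁻¹) := by
    intro w ζ hζ' y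
    have h3 := hval y
    have h4 : u y = circ R y + (circ R y)⁻¹ := rfl
    rw [← h4, ← h3, ← hζ']
    simp only [map_add, map_mul, map_pow, map_neg]
    ring
  have hne : ∀ w : K, Spc s (c * w ^ 2 + t) → ∀ y, Y y ≠ s w := by
    intro w hw y h
    obtain ⟨ζ, hζ, hζ'⟩ := hw
    have h1 := hdiff w ζ hζ' y
    rw [h, sub_self, zero_mul, mul_zero] at h1
    exact (wn_joukowski hR hζ).1.ne_zero y h1.symm
  have hLoop : LoopOn s c t Y (circ R) := by
    refine ⟨hYcd, hz, hYper, circ_add_one R, fun y => ?_, hne⟩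
    rw [hval y]
    have h2 : circ R y * (circ R y)⁻¹ = 1 := mul_inv_cancel₀ (hz.ne_zero y)
    have h4 : u y = circ R y + (circ R y)⁻¹ := rfl
    rw [h4]
    linear_combination -h2
  refine ⟨Y, circ R, hLoop, ?_⟩
  have nY : ∀ w : K, Spc s (c * w ^ 2 + t) → NZ fun y => Y y - s w := fun w hw =>
    ⟨hYcd.sub contDiff_const, fun y => sub_ne_zero.2 (hne w hw y)⟩
  have hc0 : s c ≠ 0 := h.cne
  have key : ∀ w : K, Spc s (c * w ^ 2 + t) → ρ * ‖s w‖ ≤ (m * conj (s w)).re →
      0 < dpr s Y (circ R) w := by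
    intro w hw hside
    have hw' : Spc s (c * (-w) ^ 2 + t) := by rwa [neg_sq]
    have n1 := nY w hw
    have n2 := nY (-w) hw'
    have hdisc' : Disc Y m (s (-w)) ρ :=
      ⟨hYcd, hYper, hYd, far_side h.pos.le h.half hside⟩
    have w2 : wn (fun y => Y y - s (-w)) = 0 := hdisc'.wn
    have w1 : wn (fun y => Y y - s w) = 2 * π := by
      obtain ⟨ζ, hζ, hζ'⟩ := hw
      have hcc : NZ fun _ : ℝ => s c := ⟨contDiff_const, fun _ => hc0⟩
      have h1 := wn_mul hcc (n1.mul n2)
      have h2 : (fun y => s c * ((Y y - s w) * (Y y - s (-w)))) =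
          fun y => circ R y + (circ R y)⁻¹ - (ζ + ζ⁻¹) := funext fun y => hdiff w ζ hζ' y
      have h3 : wn (fun _ : ℝ => s c) = 0 := by
        unfold wn
        simp
      rw [h2, (wn_joukowski hR hζ).2, wn_mul n1 n2, w2, h3] at h1
      linarith
    unfold dpr
    rw [pr_circ_eq hR0 n1, pr_circ_eq hR0 n2, w1, w2]
    have hint : ∫ y in (0 : ℝ)..1, Real.log ‖Y y - s w‖ ≤
        ∫ y in (0 : ℝ)..1, Real.log ‖Y y - s (-w)‖ := by
      refine intervalIntegral.integral_mono_on zero_le_one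
        (n1.cont_log.intervalIntegrable _ _) (n2.cont_log.intervalIntegrable _ _) fun y _ => ?_
      exact Real.log_le_log (norm_pos_iff.2 (n1.ne_zero y)) (norm_le_side hside (hYd y))
    have hlog : 0 < Real.log R := Real.log_pos hR
    have hpi := Real.pi_pos
    have h5 : 0 < Real.log R * (2 * π) := by positivity
    have h6 := mul_le_mul_of_nonneg_left hint (by positivity : 0 ≤ 2 * π)
    linarith
  exact mul_pos (key p hp h.sp) (key q hq h.sq)

end Pool.Agent.TH690.UE
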